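import Pool.Agent.MP_c1891a_nt.H43.Spec

/-
Valuations trivial on the constants, and invertibility of the exponent matrices.
-/

namespace Pool.Agent.MP_c1891a_nt.H43

open Finset Polynomial

theorem val_alg {K : Type} [Field K] [Algebra ℂ K] {u : K} (h : IsAlgebraic ℂ u) :
    u ∈ Set.range (algebraMap ℂ K) :=
  minpoly.mem_range_of_degree_eq_one ℂ u
    (IsAlgClosed.degree_eq_one_of_irreducible ℂ (minpoly.irreducible h.isIntegral))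

theorem val_one (K : Type) [Field K] [Algebra ℂ K] (t : K) (ht : t ∉ Set.range (algebraMap ℂ K)) :
    ∃ O : ValuationSubring K, (∀ c : ℂ, c ≠ 0 → O.valuation (algebraMap ℂ K c) = 1) ∧
      O.valuation t < 1 := by
  let A : Subring K := (aeval t : ℂ[X] →ₐ[ℂ] K).toRingHom.range
  have htA : t ∈ A := ⟨X, by simp⟩
  have hcA : ∀ c : ℂ, algebraMap ℂ K c ∈ A := fun c => ⟨C c, by simp⟩
  have hI : (Ideal.span {(⟨t, htA⟩ : A)}) ≠ ⊤ := by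
    intro h
    have h1 : (1 : A) ∈ Ideal.span {(⟨t, htA⟩ : A)} := by rw [h]; trivial
    obtain ⟨⟨b, f, rfl⟩, hb⟩ := Ideal.mem_span_singleton'.1 h1
    have hb' : aeval t f * t = 1 := congrArg Subtype.val hb
    apply ht
    apply val_alg
    refine ⟨f * X - 1, ?_, by simp [hb']⟩
    intro h0
    have := congrArg (fun g : ℂ[X] => g.coeff 0) h0
    simp at this
  obtain ⟨B, hAB, hIB⟩ := Ideal.image_subset_nonunits_valuationSubring _ hI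
  refine ⟨B, fun c hc => ?_, ?_⟩
  · have h1 : B.valuation (algebraMap ℂ K c) ≤ 1 :=
      (B.valuation_le_one_iff _).2 (hAB (hcA c))
    have h2 : B.valuation (algebraMap ℂ K c⁻¹) ≤ 1 :=
      (B.valuation_le_one_iff _).2 (hAB (hcA c⁻¹))
    have h3 : B.valuation (algebraMap ℂ K c) * B.valuation (algebraMap ℂ K c⁻¹) = 1 := by
      rw [← map_mul, ← map_mul, mul_inv_cancel₀ hc, map_one, map_one]
    refine le_antisymm h1 ?_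
    calc (1 : B.ValueGroup) = _ := h3.symm
      _ ≤ B.valuation (algebraMap ℂ K c) * 1 := by gcongr
      _ = _ := mul_one _
  · exact B.mem_nonunits_iff.1 (hIB ⟨⟨t, htA⟩, Ideal.mem_span_singleton_self _, rfl⟩)

theorem val_poly (P : LP) (x₀ y₀ : ℂ) (a b : ℤ) :
    ∃ (G : ℂ[X]) (D : ℤ), ∀ (K : Type) [Field K] [Algebra ℂ K] (s : K), s ≠ 0 →
      aeval s G = s ^ D * ev P (algebraMap ℂ K x₀ * s ^ a) (algebraMap ℂ K y₀ * s ^ b) := by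
  let D : ℤ := ∑ μ ∈ P.coeff.support, |a * μ.1 + b * μ.2|
  have hD : ∀ μ ∈ P.coeff.support, 0 ≤ D + (a * μ.1 + b * μ.2) := by
    intro μ hμ
    have h1 : |a * μ.1 + b * μ.2| ≤ D :=
      single_le_sum (f := fun μ : ℤ × ℤ => |a * μ.1 + b * μ.2|) (fun _ _ => abs_nonneg _) hμ
    have := neg_abs_le (a * μ.1 + b * μ.2)
    omega
  refine ⟨∑ μ ∈ P.coeff.support, C ((P.coeff μ : ℂ) * x₀ ^ μ.1 * y₀ ^ μ.2) *
    X ^ (D + (a * μ.1 + b * μ.2)).toNat, D, fun K _ _ s hs => ?_⟩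
  rw [map_sum, ev, mul_sum]
  refine sum_congr rfl fun μ hμ => ?_
  rw [map_mul, map_pow, aeval_X, aeval_C, ← zpow_natCast, Int.toNat_of_nonneg (hD μ hμ),
    zpow_add₀ hs, zpow_add₀ hs, mul_zpow, mul_zpow, ← zpow_mul, ← zpow_mul]
  simp only [map_mul, map_zpow₀, map_intCast]
  ring

theorem val_key (P : LP) (hP : NoCoset P) {K : Type} [Field K] [Algebra ℂ K] (s : K) (hs : s ≠ 0)
    (x₀ y₀ : ℂ) (hx : x₀ ≠ 0) (hy : y₀ ≠ 0) (a b : ℤ) (hab : a ≠ 0 ∨ b ≠ 0)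
    (h : ev P (algebraMap ℂ K x₀ * s ^ a) (algebraMap ℂ K y₀ * s ^ b) = 0) :
    s ∈ Set.range (algebraMap ℂ K) := by
  obtain ⟨G, D, hG⟩ := val_poly P x₀ y₀ a b
  obtain ⟨t, ht, hne⟩ := hP x₀ y₀ hx hy a b hab
  apply val_alg
  refine ⟨G, ?_, by rw [hG K s hs, h, mul_zero]⟩
  intro h0
  have h1 := hG ℂ t ht
  rw [h0, map_zero] at h1
  exact mul_ne_zero (zpow_ne_zero D ht) hne (by simpa using h1.symm)

theorem val_prim (m n : ℤ) (h : m ≠ 0 ∨ n ≠ 0) :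
    ∃ (g : ℕ) (m' n' α β : ℤ), g ≠ 0 ∧ m = m' * g ∧ n = n' * g ∧ α * m' + β * n' = 1 := by
  have hg : 0 < Int.gcd m n := Int.gcd_pos_iff.2 h
  obtain ⟨m', n', h1, h2, h3⟩ := Int.exists_gcd_one hg
  obtain ⟨α, β, h4⟩ := Int.isCoprime_iff_gcd_eq_one.2 h1
  exact ⟨Int.gcd m n, m', n', α, β, hg.ne', h2, h3, h4⟩

theorem val_rows (v₀ w₀ v₁ w₁ : ℤ) (h : v₀ ≠ 0 ∨ w₀ ≠ 0 ∨ v₁ ≠ 0 ∨ w₁ ≠ 0)
    (hd : v₀ * w₁ = v₁ * w₀) :
    ∃ a b m n : ℤ, (a ≠ 0 ∨ b ≠ 0) ∧ (m ≠ 0 ∨ n ≠ 0) ∧ v₀ = m * a ∧ w₀ = n * a ∧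
      v₁ = m * b ∧ w₁ = n * b := by
  have aux : ∀ v₀ w₀ v₁ w₁ : ℤ, (v₀ ≠ 0 ∨ w₀ ≠ 0) → v₀ * w₁ = v₁ * w₀ →
      ∃ a b m n : ℤ, a ≠ 0 ∧ (m ≠ 0 ∨ n ≠ 0) ∧ v₀ = m * a ∧ w₀ = n * a ∧
        v₁ = m * b ∧ w₁ = n * b := by
    intro v₀ w₀ v₁ w₁ h hd
    obtain ⟨g, m, n, α, β, hg, h1, h2, h3⟩ := val_prim v₀ w₀ h
    have hg' : (g : ℤ) ≠ 0 := by exact_mod_cast hg
    have h4 : m * w₁ = v₁ * n := by
      apply mul_right_cancel₀ hg'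
      rw [h1, h2] at hd
      linear_combination hd
    refine ⟨g, α * v₁ + β * w₁, m, n, hg', ?_, h1, h2, ?_, ?_⟩
    · by_contra h0
      push Not at h0
      rw [h0.1, h0.2] at h3
      simp at h3
    · linear_combination (-v₁) * h3 - β * h4
    · linear_combination (-w₁) * h3 + α * h4
  by_cases h0 : v₀ ≠ 0 ∨ w₀ ≠ 0
  · obtain ⟨a, b, m, n, h1, h2⟩ := aux v₀ w₀ v₁ w₁ h0 hd
    exact ⟨a, b, m, n, Or.inl h1, h2⟩
  · have h1 : v₁ ≠ 0 ∨ w₁ ≠ 0 := by tauto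
    obtain ⟨a, b, m, n, h2, h3, h4, h5, h6, h7⟩ := aux v₁ w₁ v₀ w₀ h1 hd.symm
    exact ⟨b, a, m, n, Or.inr h2, h3, h6, h7, h4, h5⟩

theorem val_det (P : LP) (hP : NoCoset P) {K : Type} [Field K] [Algebra ℂ K] (p q : K)
    (hp : p ≠ 0) (hq : q ≠ 0)
    (h3 : ∀ m n : ℤ, (m ≠ 0 ∨ n ≠ 0) → p ^ m * q ^ n ∉ Set.range (algebraMap ℂ K))
    (x₀ y₀ : ℂ) (hx : x₀ ≠ 0) (hy : y₀ ≠ 0) (v₀ w₀ v₁ w₁ : ℤ)
    (h : v₀ ≠ 0 ∨ w₀ ≠ 0 ∨ v₁ ≠ 0 ∨ w₁ ≠ 0)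
    (he : ev P (algebraMap ℂ K x₀ * p ^ v₀ * q ^ w₀) (algebraMap ℂ K y₀ * p ^ v₁ * q ^ w₁) = 0) :
    v₀ * w₁ ≠ v₁ * w₀ := by
  intro hd
  obtain ⟨a, b, m, n, hab, hmn, rfl, rfl, rfl, rfl⟩ := val_rows v₀ w₀ v₁ w₁ h hd
  refine h3 m n hmn (val_key P hP (p ^ m * q ^ n)
    (mul_ne_zero (zpow_ne_zero _ hp) (zpow_ne_zero _ hq)) x₀ y₀ hx hy a b hab ?_)
  rw [mul_zpow, mul_zpow, ← zpow_mul, ← zpow_mul, ← zpow_mul, ← zpow_mul, ← mul_assoc,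
    ← mul_assoc]
  exact he

theorem val_sub (P : LP) (hP : NoCoset P) {K : Type} [Field K] [Algebra ℂ K] (s : K) (hs : s ≠ 0)
    (hsc : s ∉ Set.range (algebraMap ℂ K)) (c₁ c₂ : ℂ) (h1 : c₁ ≠ 0) (h2 : c₂ ≠ 0) (k l : ℤ)
    (x₀ y₀ : ℂ) (hx : x₀ ≠ 0) (hy : y₀ ≠ 0) (v₀ w₀ v₁ w₁ : ℤ)
    (he : ev P (algebraMap ℂ K x₀ * (algebraMap ℂ K c₁ * s ^ k) ^ v₀ *
      (algebraMap ℂ K c₂ * s ^ l) ^ w₀) (algebraMap ℂ K y₀ * (algebraMap ℂ K c₁ * s ^ k) ^ v₁ *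
      (algebraMap ℂ K c₂ * s ^ l) ^ w₁) = 0) :
    k * v₀ + l * w₀ = 0 ∧ k * v₁ + l * w₁ = 0 := by
  by_contra h0
  have hab : k * v₀ + l * w₀ ≠ 0 ∨ k * v₁ + l * w₁ ≠ 0 := by tauto
  refine hsc (val_key P hP s hs (x₀ * c₁ ^ v₀ * c₂ ^ w₀) (y₀ * c₁ ^ v₁ * c₂ ^ w₁)
    (mul_ne_zero (mul_ne_zero hx (zpow_ne_zero _ h1)) (zpow_ne_zero _ h2))
    (mul_ne_zero (mul_ne_zero hy (zpow_ne_zero _ h1)) (zpow_ne_zero _ h2)) _ _ hab ?_)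
  rw [← he]
  congr 1
  all_goals
    simp only [map_mul, map_zpow₀, mul_zpow, zpow_add₀ hs, zpow_mul]
    ring

theorem sVal : SVal := by
  refine ⟨val_one, ?_⟩
  intro P Q hP hQ K _ _ p q hp hq hpq η v w hη hmin hA hB heP heQ
  have h3 : ∀ m n : ℤ, (m ≠ 0 ∨ n ≠ 0) → p ^ m * q ^ n ∉ Set.range (algebraMap ℂ K) := by
    intro m n hmn ⟨c, hc⟩
    obtain ⟨g, m', n', α, β, hg, rfl, rfl, hb⟩ := val_prim m n hmn
    have hu0 : p ^ m' * q ^ n' ≠ 0 := mul_ne_zero (zpow_ne_zero _ hp) (zpow_ne_zero _ hq)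
    have hu : p ^ m' * q ^ n' ∈ Set.range (algebraMap ℂ K) := by
      apply val_alg
      refine ⟨X ^ g - C c, X_pow_sub_C_ne_zero (Nat.pos_of_ne_zero hg) c, ?_⟩
      rw [map_sub, map_pow, aeval_X, aeval_C, hc, zpow_mul, zpow_mul, zpow_natCast, zpow_natCast,
        mul_pow, sub_self]
    obtain ⟨u, hu⟩ := hu
    have hu1 : u ≠ 0 := by
      rintro rfl
      exact hu0 (by rw [← hu, map_zero])
    have hs0 : p ^ (-β) * q ^ α ≠ 0 := mul_ne_zero (zpow_ne_zero _ hp) (zpow_ne_zero _ hq)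
    have e1 : p = algebraMap ℂ K (u ^ α) * (p ^ (-β) * q ^ α) ^ (-n') := by
      rw [map_zpow₀, hu, mul_zpow, mul_zpow, ← zpow_mul, ← zpow_mul, ← zpow_mul, ← zpow_mul,
        mul_mul_mul_comm, ← zpow_add₀ hp, ← zpow_add₀ hq,
        show m' * α + -β * -n' = 1 by linear_combination hb,
        show n' * α + α * -n' = 0 by ring, zpow_one, zpow_zero, mul_one]
    have e2 : q = algebraMap ℂ K (u ^ β) * (p ^ (-β) * q ^ α) ^ m' := by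
      rw [map_zpow₀, hu, mul_zpow, mul_zpow, ← zpow_mul, ← zpow_mul, ← zpow_mul, ← zpow_mul,
        mul_mul_mul_comm, ← zpow_add₀ hp, ← zpow_add₀ hq,
        show m' * β + -β * m' = 0 by ring,
        show n' * β + α * m' = 1 by linear_combination hb, zpow_one, zpow_zero, one_mul]
    generalize p ^ (-β) * q ^ α = s at hs0 e1 e2
    have hsc : s ∉ Set.range (algebraMap ℂ K) := by
      rintro ⟨d, rfl⟩
      rcases hpq with h | h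
      · exact h ⟨u ^ α * d ^ (-n'), by rw [e1, map_mul, map_zpow₀ _ d]⟩
      · exact h ⟨u ^ β * d ^ m', by rw [e2, map_mul, map_zpow₀ _ d]⟩
    rw [e1, e2] at heP heQ
    obtain ⟨z0, z1⟩ := val_sub P hP s hs0 hsc _ _ (zpow_ne_zero _ hu1) (zpow_ne_zero _ hu1) _ _
      _ _ (hη 0) (hη 1) _ _ _ _ heP
    obtain ⟨z2, z3⟩ := val_sub Q hQ s hs0 hsc _ _ (zpow_ne_zero _ hu1) (zpow_ne_zero _ hu1) _ _
      _ _ (hη 2) (hη 3) _ _ _ _ heQ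
    have hz : ∀ i, -n' * v i + m' * w i = 0 := by
      intro i
      fin_cases i
      exacts [z0, z1, z2, z3]
    obtain ⟨i, j, hij⟩ := hmin
    apply hij
    linear_combination (-(v i * w j - v j * w i)) * hb + (α * v i + β * w i) * hz j -
      (α * v j + β * w j) * hz i
  exact ⟨val_det P hP p q hp hq h3 _ _ (hη 0) (hη 1) _ _ _ _ hA heP,
    val_det Q hQ p q hp hq h3 _ _ (hη 2) (hη 3) _ _ _ _ hB heQ, h3⟩

end Pool.Agent.MP_c1891a_nt.H43
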